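import Mathlib
import Pool.Agent.H988R2.Gauss

/-! # Project GC (helper278), jobs GIR and TA: Gaussian vectors (statements in full) -/

set_option autoImplicit false

namespace Pool.Agent.Q237.GC

open Filter Topology MeasureTheory ProbabilityTheory Matrix
open scoped RealInnerProductSpace ENNReal NNReal MatrixOrder

section

variable {ι : Type} [Fintype ι] [DecidableEq ι]

/-- the square root as a continuous linear map -/
noncomputable def RT (S : Matrix ι ι ℝ) : EuclideanSpace ℝ ι →L[ℝ] EuclideanSpace ℝ ι :=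
  Matrix.toEuclideanCLM (𝕜 := ℝ) (CFC.sqrt S)

theorem RT_inner (S : Matrix ι ι ℝ) (x y : EuclideanSpace ℝ ι) :
    ⟪RT S x, y⟫ = ⟪x, RT S y⟫ := by
  have h : IsSelfAdjoint (RT S) := (CFC.sqrt_nonneg S).isSelfAdjoint.map _
  rw [← ContinuousLinearMap.adjoint_inner_right, h.adjoint_eq]

theorem RT_RT (S : Matrix ι ι ℝ) (hS : S.PosSemidef) (x : EuclideanSpace ℝ ι) :
    RT S (RT S x) = WithLp.toLp 2 (S.mulVec x) := by
  have h : RT S * RT S = Matrix.toEuclideanCLM (𝕜 := ℝ) S := by
    unfold RT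
    rw [← map_mul, CFC.sqrt_mul_sqrt_self _ hS.nonneg]
  have h2 : RT S (RT S x) = (RT S * RT S) x := rfl
  rw [h2, h]
  rfl

theorem mg_map (S : Matrix ι ι ℝ) :
    multivariateGaussian (0 : EuclideanSpace ℝ ι) S =
      (stdGaussian (EuclideanSpace ℝ ι)).map (RT S) := by
  unfold multivariateGaussian RT
  congr 1
  funext x
  rw [zero_add]

theorem mg_integral (S : Matrix ι ι ℝ) (F : EuclideanSpace ℝ ι → ℝ) (hF : Measurable F) :
    ∫ w, F w ∂(multivariateGaussian (0 : EuclideanSpace ℝ ι) S) =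
      ∫ x, F (RT S x) ∂(stdGaussian (EuclideanSpace ℝ ι)) := by
  rw [mg_map, integral_map (RT S).continuous.measurable.aemeasurable hF.aestronglyMeasurable]

/-- exponentials of linear functionals are integrable -/
theorem mg_exp_int (S : Matrix ι ι ℝ) (a : ι → ℝ) :
    Integrable (fun w : EuclideanSpace ℝ ι => Real.exp (∑ i, a i * w i))
      (multivariateGaussian (0 : EuclideanSpace ℝ ι) S) := by
  have h1 : ∀ w : EuclideanSpace ℝ ι, ∑ i, a i * w i =
      (innerSL ℝ (WithLp.toLp 2 a : EuclideanSpace ℝ ι)) w := by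
    intro w
    rw [innerSL_apply_apply, PiLp.inner_apply]
    apply Finset.sum_congr rfl
    intro i _
    rw [RCLike.inner_apply]
    simp [mul_comm]
  simp_rw [h1]
  have h2 := IsGaussian.map_eq_gaussianReal
    (μ := multivariateGaussian (0 : EuclideanSpace ℝ ι) S)
    (innerSL ℝ (WithLp.toLp 2 a : EuclideanSpace ℝ ι))
  have h3 : Integrable (fun x : ℝ => Real.exp (1 * x))
      ((multivariateGaussian (0 : EuclideanSpace ℝ ι) S).map
        (innerSL ℝ (WithLp.toLp 2 a : EuclideanSpace ℝ ι))) := by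
    rw [h2]
    exact integrable_exp_mul_gaussianReal 1
  have h4 := h3.comp_measurable
    (innerSL ℝ (WithLp.toLp 2 a : EuclideanSpace ℝ ι)).continuous.measurable
  refine h4.congr (ae_of_all _ fun w => ?_)
  simp

/-- **GIR** -/
theorem gir (S : Matrix ι ι ℝ) (hS : S.PosSemidef) (a : ι → ℝ) (F : EuclideanSpace ℝ ι → ℝ)
    (hF : Measurable F) (hB : ∃ B : ℝ, ∀ w, |F w| ≤ B) :
    Integrable (fun w : EuclideanSpace ℝ ι =>
      Real.exp ((∑ i, a i * w i) - (∑ i, ∑ j, a i * a j * S i j) / 2) * F w)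
      (multivariateGaussian 0 S) ∧
    ∫ w : EuclideanSpace ℝ ι,
      Real.exp ((∑ i, a i * w i) - (∑ i, ∑ j, a i * a j * S i j) / 2) * F w
        ∂(multivariateGaussian (0 : EuclideanSpace ℝ ι) S) =
      ∫ w, F (w + WithLp.toLp 2 (S.mulVec a))
        ∂(multivariateGaussian (0 : EuclideanSpace ℝ ι) S) := by
  obtain ⟨B, hB⟩ := hB
  obtain ⟨b, hb⟩ : ∃ b : EuclideanSpace ℝ ι, b = RT S (WithLp.toLp 2 a) := ⟨_, rfl⟩
  have hin : ∀ w : EuclideanSpace ℝ ι, ∑ i, a i * w i = ⟪w, WithLp.toLp 2 a⟫ := by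
    intro w
    rw [PiLp.inner_apply]
    apply Finset.sum_congr rfl
    intro i _
    rw [RCLike.inner_apply]
    simp
  have hq : ∑ i, ∑ j, a i * a j * S i j = ‖b‖ ^ 2 := by
    rw [← real_inner_self_eq_norm_sq, hb, RT_inner, RT_RT S hS, PiLp.inner_apply]
    apply Finset.sum_congr rfl
    intro i _
    rw [RCLike.inner_apply]
    simp only [Matrix.mulVec, dotProduct, starRingEnd_apply, star_trivial]
    rw [Finset.sum_mul]
    apply Finset.sum_congr rfl
    intro j _
    ring
  refine ⟨?_, ?_⟩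
  · have h1 := (mg_exp_int S a).const_mul (Real.exp (-(∑ i, ∑ j, a i * a j * S i j) / 2))
    have h2 : Integrable (fun w : EuclideanSpace ℝ ι => F w *
        (Real.exp (-(∑ i, ∑ j, a i * a j * S i j) / 2) * Real.exp (∑ i, a i * w i)))
        (multivariateGaussian 0 S) := by
      refine Integrable.bdd_mul (c := B) h1 hF.aestronglyMeasurable (ae_of_all _ fun w => ?_)
      rw [Real.norm_eq_abs]
      exact hB w
    refine h2.congr (ae_of_all _ fun w => ?_)
    simp only
    rw [← Real.exp_add, mul_comm]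
    congr 2
    ring
  · rw [mg_integral S _ (by fun_prop), mg_integral S _ (by fun_prop)]
    have h1 := Pool.Agent.H988R2.integral_stdGaussian_add ι (fun x => F (RT S x)) b
    have h2 : ∀ x : EuclideanSpace ℝ ι, RT S (x + b) = RT S x + WithLp.toLp 2 (S.mulVec a) := by
      intro x
      rw [map_add, hb, RT_RT S hS]
    simp only [h2] at h1
    rw [h1, ← integral_const_mul]
    congr 1
    funext x
    rw [hin, hq, RT_inner, ← hb, ← mul_assoc, ← Real.exp_add]
    congr 2
    ring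

/-- tails of a centered normal variable -/
theorem tail_up (s : ℝ≥0) (v u : ℝ) (hs : (s : ℝ) ≤ v) (hv : 0 < v) (hu : 0 ≤ u) :
    (gaussianReal 0 s).real {x | u ≤ x} ≤ Real.exp (-u ^ 2 / (2 * v)) := by
  have h : HasSubgaussianMGF (fun x : ℝ => x) ⟨v, hv.le⟩ (gaussianReal 0 s) := by
    refine ⟨fun t => integrable_exp_mul_gaussianReal t, fun t => ?_⟩
    have h1 : mgf (fun x : ℝ => x) (gaussianReal 0 s) t = Real.exp (0 * t + s * t ^ 2 / 2) :=
      mgf_gaussianReal (by simp) t
    rw [h1, Real.exp_le_exp, zero_mul, zero_add]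
    apply div_le_div_of_nonneg_right _ (by norm_num)
    exact mul_le_mul_of_nonneg_right hs (sq_nonneg t)
  exact h.measure_ge_le hu

theorem tail_down (s : ℝ≥0) (v u : ℝ) (hs : (s : ℝ) ≤ v) (hv : 0 < v) (hu : 0 ≤ u) :
    (gaussianReal 0 s).real {x | x ≤ -u} ≤ Real.exp (-u ^ 2 / (2 * v)) := by
  have h : HasSubgaussianMGF (fun x : ℝ => -x) ⟨v, hv.le⟩ (gaussianReal 0 s) := by
    refine ⟨fun t => ?_, fun t => ?_⟩
    · have := integrable_exp_mul_gaussianReal (μ := 0) (v := s) (-t)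
      refine this.congr (ae_of_all _ fun x => ?_)
      simp
    · have h1 : mgf (fun x : ℝ => -x) (gaussianReal 0 s) t =
          mgf (fun x : ℝ => x) (gaussianReal 0 s) (-t) := by
        unfold mgf
        congr 1
        funext x
        congr 1
        ring
      have h2 : mgf (fun x : ℝ => x) (gaussianReal 0 s) (-t) =
          Real.exp (0 * (-t) + s * (-t) ^ 2 / 2) := mgf_gaussianReal (by simp) (-t)
      rw [h1, h2, Real.exp_le_exp, zero_mul, zero_add, neg_sq]
      apply div_le_div_of_nonneg_right _ (by norm_num)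
      exact mul_le_mul_of_nonneg_right hs (sq_nonneg t)
  have h3 := h.measure_ge_le hu
  have h4 : {x : ℝ | u ≤ -x} = {x : ℝ | x ≤ -u} := by
    ext x
    simp only [Set.mem_setOf_eq]
    constructor <;> intro <;> linarith
  rw [h4] at h3
  exact h3

theorem small_int (s : ℝ≥0) (hs : 0 < s) (t δ : ℝ) (hδ : 0 ≤ δ) :
    (gaussianReal 0 s).real {x | t ≤ x ∧ x ≤ t + δ} ≤ δ / Real.sqrt s := by
  have hs0 : (0 : ℝ) < s := by exact_mod_cast hs
  have h1 : ∀ x : ℝ, gaussianPDF 0 s x ≤ ENNReal.ofReal (1 / Real.sqrt s) := by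
    intro x
    rw [gaussianPDF_def]
    apply ENNReal.ofReal_le_ofReal
    rw [gaussianPDFReal_def]
    have h2 : Real.exp (-(x - 0) ^ 2 / (2 * s)) ≤ 1 := by
      rw [Real.exp_le_one_iff]
      apply div_nonpos_of_nonpos_of_nonneg _ (by positivity)
      have := sq_nonneg (x - 0)
      linarith
    have h3 : (Real.sqrt (2 * Real.pi * s))⁻¹ ≤ 1 / Real.sqrt s := by
      rw [one_div]
      apply inv_anti₀ (Real.sqrt_pos.2 hs0)
      apply Real.sqrt_le_sqrt
      have := Real.pi_gt_three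
      nlinarith
    have h4 : 0 ≤ (Real.sqrt (2 * Real.pi * s))⁻¹ := by positivity
    calc (Real.sqrt (2 * Real.pi * s))⁻¹ * Real.exp (-(x - 0) ^ 2 / (2 * s)) ≤
        (Real.sqrt (2 * Real.pi * s))⁻¹ * 1 := mul_le_mul_of_nonneg_left h2 h4
      _ ≤ _ := by rw [mul_one]; exact h3
  have h5 : gaussianReal 0 s {x | t ≤ x ∧ x ≤ t + δ} ≤ ENNReal.ofReal (δ / Real.sqrt s) := by
    rw [gaussianReal_apply 0 hs.ne']
    calc ∫⁻ x in {x | t ≤ x ∧ x ≤ t + δ}, gaussianPDF 0 s x ≤
        ∫⁻ x in {x | t ≤ x ∧ x ≤ t + δ}, ENNReal.ofReal (1 / Real.sqrt s) :=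
          lintegral_mono fun x => h1 x
      _ = ENNReal.ofReal (1 / Real.sqrt s) * volume {x | t ≤ x ∧ x ≤ t + δ} := by
          rw [setLIntegral_const]
      _ = ENNReal.ofReal (δ / Real.sqrt s) := by
          have : {x : ℝ | t ≤ x ∧ x ≤ t + δ} = Set.Icc t (t + δ) := rfl
          rw [this, Real.volume_Icc, ← ENNReal.ofReal_mul (by positivity)]
          congr 1
          ring
  have h6 := ENNReal.toReal_mono ENNReal.ofReal_ne_top h5
  rw [ENNReal.toReal_ofReal (by positivity)] at h6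
  exact h6

/-- **TA** -/
theorem ta (S : Matrix ι ι ℝ) (hS : S.PosSemidef) (i : ι) :
    (∀ v u : ℝ, S i i ≤ v → 0 < v → 0 ≤ u →
      (multivariateGaussian (0 : EuclideanSpace ℝ ι) S).real {w | u ≤ w i} ≤
        Real.exp (-u ^ 2 / (2 * v)) ∧
      (multivariateGaussian (0 : EuclideanSpace ℝ ι) S).real {w | w i ≤ -u} ≤
        Real.exp (-u ^ 2 / (2 * v))) ∧
    (∀ t δ : ℝ, 0 < S i i → 0 ≤ δ →
      (multivariateGaussian (0 : EuclideanSpace ℝ ι) S).real {w | t ≤ w i ∧ w i ≤ t + δ} ≤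
        δ / Real.sqrt (S i i)) := by
  have hmp := measurePreserving_eval_multivariateGaussian (μ := (0 : EuclideanSpace ℝ ι)) hS
    (i := i)
  have h0 : (0 : EuclideanSpace ℝ ι) i = 0 := rfl
  rw [h0] at hmp
  have hre : ∀ s : Set ℝ, MeasurableSet s →
      (multivariateGaussian (0 : EuclideanSpace ℝ ι) S).real ((fun x => x i) ⁻¹' s) =
        (gaussianReal 0 (S i i).toNNReal).real s := by
    intro s hs
    unfold Measure.real
    rw [hmp.measure_preimage hs.nullMeasurableSet]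
  refine ⟨fun v u hv hv0 hu => ?_, fun t δ hp hδ => ?_⟩
  · have hs : ((S i i).toNNReal : ℝ) ≤ v := by
      rw [Real.coe_toNNReal']
      exact max_le hv hv0.le
    refine ⟨?_, ?_⟩
    · have := hre {x | u ≤ x} measurableSet_Ici
      have e : (fun x : EuclideanSpace ℝ ι => x i) ⁻¹' {x | u ≤ x} = {w | u ≤ w i} := rfl
      rw [e] at this
      rw [this]
      exact tail_up _ v u hs hv0 hu
    · have := hre {x | x ≤ -u} measurableSet_Iic
      have e : (fun x : EuclideanSpace ℝ ι => x i) ⁻¹' {x | x ≤ -u} = {w | w i ≤ -u} := rfl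
      rw [e] at this
      rw [this]
      exact tail_down _ v u hs hv0 hu
  · have := hre {x | t ≤ x ∧ x ≤ t + δ} measurableSet_Icc
    have e : (fun x : EuclideanSpace ℝ ι => x i) ⁻¹' {x | t ≤ x ∧ x ≤ t + δ} =
      {w | t ≤ w i ∧ w i ≤ t + δ} := rfl
    rw [e] at this
    rw [this]
    have hs : ((S i i).toNNReal : ℝ) = S i i := Real.coe_toNNReal _ hp.le
    have h1 := small_int (S i i).toNNReal (Real.toNNReal_pos.2 hp) t δ hδ
    rw [hs] at h1
    exact h1

end

end Pool.Agent.Q237.GC
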