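import Mathlib

/-! # Project GC (helper278), job Q8: completeness with uniform integrability -/

set_option autoImplicit false

namespace Pool.Agent.Q237.GC

open Filter Topology MeasureTheory ProbabilityTheory
open scoped ENNReal NNReal BoundedContinuousFunction

/-- a bounded continuous function from a bound -/
noncomputable def bcf (f : ℂ → ℝ) (hf : Continuous f) (C : ℝ) (hC : ∀ z, |f z| ≤ C) : ℂ →ᵇ ℝ :=
  BoundedContinuousFunction.ofNormedAddCommGroup f hf C hC

theorem q8 (μ : ℕ → Measure ℂ) (c : ℂ) (hp : ∀ i, IsProbabilityMeasure (μ i))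
    (hi : ∀ i, Integrable (fun z => z) (μ i))
    (hui : ∀ ε : ℝ, 0 < ε → ∃ (R : ℝ) (N : ℕ), 0 ≤ R ∧ ∀ i, N ≤ i →
      ∫ z, max 0 (‖z‖ - R) ∂(μ i) ≤ ε)
    (hm : ∀ i, ∫ z, z ∂(μ i) = c)
    (hc : ∀ δ : ℝ, 0 < δ → ∃ N : ℕ, ∀ i j : ℕ, N ≤ i → N ≤ j → ∀ Φ : ℂ → ℝ, (∀ z, |Φ z| ≤ 1) →
      LipschitzWith 1 Φ → |∫ z, Φ z ∂(μ i) - ∫ z, Φ z ∂(μ j)| ≤ δ) :
    ∃ ν : Measure ℂ, IsProbabilityMeasure ν ∧ Integrable (fun z => z) ν ∧ ∫ z, z ∂ν = c ∧
      ∀ δ : ℝ, 0 < δ → ∃ N : ℕ, ∀ i : ℕ, N ≤ i → ∀ Φ : ℂ → ℝ, (∀ z, |Φ z| ≤ 1) →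
        LipschitzWith 1 Φ → |∫ z, Φ z ∂(μ i) - ∫ z, Φ z ∂ν| ≤ δ := by
  have hhc : ∀ R : ℝ, Continuous fun z : ℂ => max 0 (‖z‖ - R) := fun R => by fun_prop
  have hh0 : ∀ (R : ℝ) (z : ℂ), 0 ≤ max 0 (‖z‖ - R) := fun R z => le_max_left _ _
  have hhi : ∀ (R : ℝ), 0 ≤ R → ∀ (ρ : Measure ℂ), Integrable (fun z => z) ρ →
      Integrable (fun z : ℂ => max 0 (‖z‖ - R)) ρ := by
    intro R hR ρ hρ
    refine hρ.norm.mono' (hhc R).aestronglyMeasurable (ae_of_all _ fun z => ?_)
    rw [Real.norm_eq_abs, abs_of_nonneg (hh0 R z)]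
    exact max_le (norm_nonneg _) (by linarith)
  -- a uniform bound
  obtain ⟨R1, N1, hR1, hN1⟩ := hui 1 one_pos
  obtain ⟨B, hB0, hB⟩ : ∃ B : ℝ, 0 < B ∧ ∀ i, ∫ z, max 0 (‖z‖ - R1) ∂(μ i) ≤ B := by
    have h0 : ∀ i, 0 ≤ ∫ z, max 0 (‖z‖ - R1) ∂(μ i) := fun i =>
      integral_nonneg fun z => hh0 R1 z
    refine ⟨1 + ∑ i ∈ Finset.range N1, ∫ z, max 0 (‖z‖ - R1) ∂(μ i),
      add_pos_of_pos_of_nonneg one_pos (Finset.sum_nonneg fun i _ => h0 i), fun i => ?_⟩
    by_cases h : N1 ≤ i
    · have := hN1 i h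
      have h2 : 0 ≤ ∑ i ∈ Finset.range N1, ∫ z, max 0 (‖z‖ - R1) ∂(μ i) :=
        Finset.sum_nonneg fun i _ => h0 i
      linarith
    · have h2 : ∫ z, max 0 (‖z‖ - R1) ∂(μ i) ≤
          ∑ i ∈ Finset.range N1, ∫ z, max 0 (‖z‖ - R1) ∂(μ i) :=
        Finset.single_le_sum (f := fun i => ∫ z, max 0 (‖z‖ - R1) ∂(μ i)) (fun i _ => h0 i)
          (Finset.mem_range.2 (by omega))
      linarith
  -- tightness
  let P : ℕ → ProbabilityMeasure ℂ := fun i => ⟨μ i, hp i⟩
  have htight : IsTightMeasureSet {((ρ : ProbabilityMeasure ℂ) : Measure ℂ) | ρ ∈ Set.range P} := by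
    rw [isTightMeasureSet_iff_exists_isCompact_measure_compl_le]
    intro ε hε
    obtain ⟨M, hM0, hM⟩ : ∃ M : ℝ, 0 < M ∧ ENNReal.ofReal (B / M) ≤ ε := by
      by_cases htop : ε = ∞
      · exact ⟨1, one_pos, by rw [htop]; exact le_top⟩
      · have h1 : 0 < ε.toReal := ENNReal.toReal_pos hε.ne' htop
        refine ⟨B / ε.toReal, by positivity, ?_⟩
        have : B / (B / ε.toReal) = ε.toReal := by field_simp
        rw [this, ENNReal.ofReal_toReal htop]
    refine ⟨Metric.closedBall 0 (R1 + M), isCompact_closedBall _ _, ?_⟩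
    rintro _ ⟨_, ⟨i, rfl⟩, rfl⟩
    have h1 := mul_meas_ge_le_integral_of_nonneg (μ := μ i) (f := fun z : ℂ => max 0 (‖z‖ - R1))
      (ae_of_all _ fun z => hh0 R1 z) (hhi R1 hR1 (μ i) (hi i)) M
    have h2 : (μ i).real {z : ℂ | M ≤ max 0 (‖z‖ - R1)} ≤ B / M := by
      rw [le_div_iff₀ hM0, mul_comm]
      exact h1.trans (hB i)
    have h3 : (Metric.closedBall (0 : ℂ) (R1 + M))ᶜ ⊆ {z : ℂ | M ≤ max 0 (‖z‖ - R1)} := by
      intro z hz
      rw [Set.mem_compl_iff, Metric.mem_closedBall, dist_zero_right, not_le] at hz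
      have hz2 : M ≤ ‖z‖ - R1 := by linarith
      exact hz2.trans (le_max_right _ _)
    calc (μ i) (Metric.closedBall (0 : ℂ) (R1 + M))ᶜ ≤ (μ i) {z : ℂ | M ≤ max 0 (‖z‖ - R1)} :=
          measure_mono h3
      _ = ENNReal.ofReal ((μ i).real {z : ℂ | M ≤ max 0 (‖z‖ - R1)}) := by
          rw [ofReal_measureReal]
      _ ≤ ENNReal.ofReal (B / M) := ENNReal.ofReal_le_ofReal h2
      _ ≤ ε := hM
  have hcomp := isCompact_closure_of_isTightMeasureSet htight
  let F : Ultrafilter ℕ := Ultrafilter.of (atTop : Filter ℕ)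
  have hF : (F : Filter ℕ) ≤ atTop := Ultrafilter.of_le atTop
  obtain ⟨ν, _, hν⟩ := hcomp.ultrafilter_le_nhds (F.map P) (by
    rw [le_principal_iff]
    exact Filter.mem_of_superset (Filter.range_mem_map (m := P)) subset_closure)
  have hν' : Tendsto P F (𝓝 ν) := hν
  rw [ProbabilityMeasure.tendsto_iff_forall_integral_tendsto] at hν'
  have hlim : ∀ f : ℂ → ℝ, Continuous f → ∀ C : ℝ, (∀ z, |f z| ≤ C) →
      Tendsto (fun i => ∫ z, f z ∂(μ i)) F (𝓝 (∫ z, f z ∂(ν : Measure ℂ))) := by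
    intro f hf C hC
    exact hν' (bcf f hf C hC)
  -- first moments
  have hev : ∀ N : ℕ, ∀ᶠ i in (F : Filter ℕ), N ≤ i := fun N => hF (eventually_ge_atTop N)
  have hbd : ∀ (R ε : ℝ) (N : ℕ), 0 ≤ R → (∀ i, N ≤ i → ∫ z, max 0 (‖z‖ - R) ∂(μ i) ≤ ε) →
      ∀ n : ℕ, ∫ z, min (max 0 (‖z‖ - R)) n ∂(ν : Measure ℂ) ≤ ε := by
    intro R ε N hR hN n
    have h1 := hlim (fun z => min (max 0 (‖z‖ - R)) n) (by fun_prop) n (fun z => by
      rw [abs_of_nonneg (le_min (hh0 R z) (Nat.cast_nonneg n))]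
      exact min_le_right _ _)
    refine le_of_tendsto h1 ?_
    filter_upwards [hev N] with i hi'
    refine le_trans ?_ (hN i hi')
    apply integral_mono_of_nonneg
    · exact ae_of_all _ fun z => le_min (hh0 R z) (Nat.cast_nonneg n)
    · exact hhi R hR (μ i) (hi i)
    · exact ae_of_all _ fun z => min_le_left _ _
  have hmin_int : ∀ (R : ℝ) (n : ℕ), Integrable (fun z : ℂ => min (max 0 (‖z‖ - R)) (n : ℝ))
      (ν : Measure ℂ) := by
    intro R n
    refine Integrable.of_bound (Continuous.aestronglyMeasurable (by fun_prop)) n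
      (ae_of_all _ fun z => ?_)
    rw [Real.norm_eq_abs, abs_of_nonneg (le_min (hh0 R z) (Nat.cast_nonneg n))]
    exact min_le_right _ _
  have hint : Integrable (fun z : ℂ => z) (ν : Measure ℂ) := by
    have hcov : AECover (ν : Measure ℂ) (atTop : Filter ℕ) fun n : ℕ =>
        Metric.closedBall (0 : ℂ) n := aecover_closedBall tendsto_natCast_atTop_atTop
    apply hcov.integrable_of_integral_norm_bounded (R1 + B)
    · intro n
      exact continuous_id.continuousOn.integrableOn_compact (isCompact_closedBall _ _)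
    · refine Eventually.of_forall fun n => ?_
      have h1 := hbd R1 B 0 hR1 (fun i _ => hB i) n
      have h2 : ∫ z in Metric.closedBall (0 : ℂ) n, ‖z‖ ∂(ν : Measure ℂ) ≤
          ∫ z in Metric.closedBall (0 : ℂ) n, (R1 + min (max 0 (‖z‖ - R1)) n)
            ∂(ν : Measure ℂ) := by
        apply setIntegral_mono_on
        · exact continuous_norm.continuousOn.integrableOn_compact (isCompact_closedBall _ _)
        · exact ((integrable_const R1).add (hmin_int R1 n)).integrableOn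
        · exact Metric.isClosed_closedBall.measurableSet
        · intro z hz
          rw [Metric.mem_closedBall, dist_zero_right] at hz
          have : ‖z‖ - R1 ≤ min (max 0 (‖z‖ - R1)) n :=
            le_min (le_max_right _ _) (by linarith)
          linarith
      have h3 : ∫ z in Metric.closedBall (0 : ℂ) n, (R1 + min (max 0 (‖z‖ - R1)) n)
            ∂(ν : Measure ℂ) ≤ ∫ z, (R1 + min (max 0 (‖z‖ - R1)) n) ∂(ν : Measure ℂ) := by
        apply setIntegral_le_integral ((integrable_const R1).add (hmin_int R1 n))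
        exact ae_of_all _ fun z => add_nonneg hR1 (le_min (hh0 R1 z) (Nat.cast_nonneg n))
      have h4 : ∫ z, (R1 + min (max 0 (‖z‖ - R1)) n) ∂(ν : Measure ℂ) =
          R1 + ∫ z, min (max 0 (‖z‖ - R1)) n ∂(ν : Measure ℂ) := by
        rw [integral_add (integrable_const R1) (hmin_int R1 n)]
        simp
      linarith
  have htail : ∀ (R ε : ℝ) (N : ℕ), 0 ≤ R → (∀ i, N ≤ i → ∫ z, max 0 (‖z‖ - R) ∂(μ i) ≤ ε) →
      ∫ z, max 0 (‖z‖ - R) ∂(ν : Measure ℂ) ≤ ε := by
    intro R ε N hR hN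
    have h1 : Tendsto (fun n : ℕ => ∫ z, min (max 0 (‖z‖ - R)) (n : ℝ) ∂(ν : Measure ℂ)) atTop
        (𝓝 (∫ z, max 0 (‖z‖ - R) ∂(ν : Measure ℂ))) := by
      apply tendsto_integral_of_dominated_convergence (fun z : ℂ => max 0 (‖z‖ - R))
      · intro n
        exact Continuous.aestronglyMeasurable (by fun_prop)
      · exact hhi R hR _ hint
      · intro n
        refine ae_of_all _ fun z => ?_
        rw [Real.norm_eq_abs, abs_of_nonneg (le_min (hh0 R z) (Nat.cast_nonneg n))]
        exact min_le_left _ _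
      · refine ae_of_all _ fun z => ?_
        obtain ⟨n0, hn0⟩ := exists_nat_ge (max 0 (‖z‖ - R))
        refine tendsto_const_nhds.congr' ?_
        filter_upwards [eventually_ge_atTop n0] with n hn
        rw [min_eq_left]
        exact hn0.trans (by exact_mod_cast hn)
    exact le_of_tendsto h1 (Eventually.of_forall fun n => hbd R ε N hR hN n)
  -- means
  have hmean : ∀ (p : ℂ → ℝ) (cp : ℝ), Continuous p → (∀ z, |p z| ≤ ‖z‖) →
      (∀ i, ∫ z, p z ∂(μ i) = cp) → ∫ z, p z ∂(ν : Measure ℂ) = cp := by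
    intro p cp hpc hpz hpm
    have hpi : ∀ ρ : Measure ℂ, Integrable (fun z => z) ρ → Integrable p ρ := by
      intro ρ hρ
      exact hρ.norm.mono' hpc.aestronglyMeasurable (ae_of_all _ fun z => hpz z)
    have key : ∀ ε : ℝ, 0 < ε → |∫ z, p z ∂(ν : Measure ℂ) - cp| ≤ 2 * ε := by
      intro ε hε
      obtain ⟨R, N, hR, hN⟩ := hui ε hε
      have hgc : Continuous fun z : ℂ => max (-R) (min R (p z)) := by fun_prop
      have hgb : ∀ z : ℂ, |max (-R) (min R (p z))| ≤ R := by
        intro z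
        rw [abs_le]
        exact ⟨le_max_left _ _, max_le (by linarith) (min_le_left _ _)⟩
      have hgd : ∀ z : ℂ, |p z - max (-R) (min R (p z))| ≤ max 0 (‖z‖ - R) := by
        intro z
        have h1 := hpz z
        have h2 := abs_le.1 h1
        rcases le_total (p z) R with h3 | h3
        · rcases le_total (-R) (p z) with h4 | h4
          · rw [min_eq_right h3, max_eq_right h4, sub_self, abs_zero]
            exact hh0 R z
          · rw [min_eq_right h3, max_eq_left h4, abs_of_nonpos (by linarith)]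
            exact le_max_of_le_right (by linarith)
        · rw [min_eq_left h3, max_eq_right (by linarith), abs_of_nonneg (by linarith)]
          exact le_max_of_le_right (by linarith)
      have hgi : ∀ ρ : Measure ℂ, [IsProbabilityMeasure ρ] →
          Integrable (fun z : ℂ => max (-R) (min R (p z))) ρ := by
        intro ρ _
        exact Integrable.of_bound hgc.aestronglyMeasurable R (ae_of_all _ fun z => hgb z)
      have hdiff : ∀ ρ : Measure ℂ, [IsProbabilityMeasure ρ] → Integrable (fun z => z) ρ →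
          ∫ z, max 0 (‖z‖ - R) ∂ρ ≤ ε →
          |∫ z, p z ∂ρ - ∫ z, max (-R) (min R (p z)) ∂ρ| ≤ ε := by
        intro ρ _ hρ hρε
        rw [← integral_sub (hpi ρ hρ) (hgi ρ)]
        refine (abs_integral_le_integral_abs).trans (le_trans ?_ hρε)
        exact integral_mono_of_nonneg (ae_of_all _ fun z => abs_nonneg _) (hhi R hR ρ hρ)
          (ae_of_all _ fun z => hgd z)
      have h1 := hdiff (ν : Measure ℂ) hint (htail R ε N hR hN)
      have h2 := hlim _ hgc R hgb
      have h3 : |cp - ∫ z, max (-R) (min R (p z)) ∂(ν : Measure ℂ)| ≤ ε := by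
        have h4 : Tendsto (fun i => |cp - ∫ z, max (-R) (min R (p z)) ∂(μ i)|) F
            (𝓝 |cp - ∫ z, max (-R) (min R (p z)) ∂(ν : Measure ℂ)|) :=
          (tendsto_const_nhds.sub h2).abs
        refine le_of_tendsto h4 ?_
        filter_upwards [hev N] with i hi'
        haveI := hp i
        have h5 := hdiff (μ i) (hi i) (hN i hi')
        rw [hpm i] at h5
        exact h5
      have h6 : ∫ z, p z ∂(ν : Measure ℂ) - cp =
          (∫ z, p z ∂(ν : Measure ℂ) - ∫ z, max (-R) (min R (p z)) ∂(ν : Measure ℂ)) -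
            (cp - ∫ z, max (-R) (min R (p z)) ∂(ν : Measure ℂ)) := by ring
      rw [h6]
      refine (abs_sub _ _).trans ?_
      linarith
    have h0 : |∫ z, p z ∂(ν : Measure ℂ) - cp| ≤ 0 := by
      apply le_of_forall_pos_le_add
      intro ε hε
      have := key (ε / 2) (by linarith)
      linarith
    have := abs_nonpos_iff.1 h0
    linarith
  refine ⟨(ν : Measure ℂ), inferInstance, hint, ?_, ?_⟩
  · apply Complex.ext
    · have h1 := hmean Complex.re c.re Complex.continuous_re Complex.abs_re_le_norm (fun i => by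
        have := Complex.reCLM.integral_comp_comm (hi i)
        simp only [Complex.reCLM_apply] at this
        rw [this, hm i])
      have h2 := Complex.reCLM.integral_comp_comm hint
      simp only [Complex.reCLM_apply] at h2
      rw [← h2, h1]
    · have h1 := hmean Complex.im c.im Complex.continuous_im Complex.abs_im_le_norm (fun i => by
        have := Complex.imCLM.integral_comp_comm (hi i)
        simp only [Complex.imCLM_apply] at this
        rw [this, hm i])
      have h2 := Complex.imCLM.integral_comp_comm hint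
      simp only [Complex.imCLM_apply] at h2
      rw [← h2, h1]
  · intro δ hδ
    obtain ⟨N, hN⟩ := hc δ hδ
    refine ⟨N, fun i hi' Φ hΦ hL => ?_⟩
    have h1 := hlim Φ hL.continuous 1 hΦ
    have h2 : Tendsto (fun j => |∫ z, Φ z ∂(μ i) - ∫ z, Φ z ∂(μ j)|) F
        (𝓝 |∫ z, Φ z ∂(μ i) - ∫ z, Φ z ∂(ν : Measure ℂ)|) := (tendsto_const_nhds.sub h1).abs
    refine le_of_tendsto h2 ?_
    filter_upwards [hev N] with j hj
    exact hN i j hi' hj Φ hΦ hL

end Pool.Agent.Q237.GC
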