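import Mathlib

/-! # Project GC (helper278), job Q6: coordinates of a Gaussian vector -/

set_option autoImplicit false

namespace Pool.Agent.Q237.GC

open Filter Topology MeasureTheory ProbabilityTheory Matrix
open scoped RealInnerProductSpace ENNReal NNReal

/-- the vector of some coordinates of a centered Gaussian vector -/
theorem mg_coords {ι ι' : Type} [Fintype ι] [DecidableEq ι] [Fintype ι'] [DecidableEq ι']
    (S : Matrix ι ι ℝ) (hS : S.PosSemidef) (e : ι' → ι) :
    (multivariateGaussian (0 : EuclideanSpace ℝ ι) S).map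
      (fun w => (WithLp.toLp 2 fun i => w (e i) : EuclideanSpace ℝ ι')) =
      multivariateGaussian (0 : EuclideanSpace ℝ ι') (S.submatrix e e) := by
  have hm : Measurable (fun w : EuclideanSpace ℝ ι =>
      (WithLp.toLp 2 fun i => w (e i) : EuclideanSpace ℝ ι')) := by
    fun_prop
  haveI : IsProbabilityMeasure ((multivariateGaussian (0 : EuclideanSpace ℝ ι) S).map
      (fun w => (WithLp.toLp 2 fun i => w (e i) : EuclideanSpace ℝ ι'))) :=
    Measure.isProbabilityMeasure_map hm.aemeasurable
  apply Measure.ext_of_charFun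
  funext t
  rw [charFun_multivariateGaussian (hS.submatrix e), charFun_apply,
    integral_map hm.aemeasurable (by fun_prop)]
  -- the adjoint vector
  obtain ⟨s, hs⟩ : ∃ s : EuclideanSpace ℝ ι, s = WithLp.toLp 2 fun j =>
    ∑ i, if e i = j then t i else 0 := ⟨_, rfl⟩
  have hin : ∀ w : EuclideanSpace ℝ ι,
      ⟪(WithLp.toLp 2 fun i => w (e i) : EuclideanSpace ℝ ι'), t⟫ = ⟪w, s⟫ := by
    intro w
    rw [PiLp.inner_apply, PiLp.inner_apply]
    simp only [RCLike.inner_apply, starRingEnd_apply, star_trivial]
    rw [hs]
    simp only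
    have h1 : ∀ j, (∑ i, if e i = j then t i else 0) * w j =
        ∑ i, if e i = j then t i * w j else 0 := by
      intro j
      rw [Finset.sum_mul]
      apply Finset.sum_congr rfl
      intro i _
      split_ifs <;> simp
    simp_rw [h1]
    rw [Finset.sum_comm]
    apply Finset.sum_congr rfl
    intro i _
    rw [Finset.sum_ite_eq]
    simp
  have h2 : ∫ w : EuclideanSpace ℝ ι,
      Complex.exp (⟪(WithLp.toLp 2 fun i => w (e i) : EuclideanSpace ℝ ι'), t⟫ * Complex.I)
        ∂(multivariateGaussian (0 : EuclideanSpace ℝ ι) S) =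
      charFun (multivariateGaussian (0 : EuclideanSpace ℝ ι) S) s := by
    rw [charFun_apply]
    simp_rw [hin]
  rw [h2, charFun_multivariateGaussian hS]
  congr 1
  have hq : s ⬝ᵥ S *ᵥ s = t ⬝ᵥ (S.submatrix e e) *ᵥ t := by
    simp only [dotProduct, Matrix.mulVec, Matrix.submatrix_apply]
    have hsj : ∀ j, s j = ∑ i, if e i = j then t i else 0 := by
      intro j
      rw [hs]
    have h3 : ∀ g : ι → ℝ, ∑ j, s j * g j = ∑ i, t i * g (e i) := by
      intro g
      have h1 : ∀ j, s j * g j = ∑ i, if e i = j then t i * g j else 0 := by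
        intro j
        rw [hsj j, Finset.sum_mul]
        apply Finset.sum_congr rfl
        intro i _
        split_ifs <;> simp
      simp_rw [h1]
      rw [Finset.sum_comm]
      apply Finset.sum_congr rfl
      intro i _
      rw [Finset.sum_ite_eq]
      simp
    have h4 : ∀ j, ∑ k, S j k * s k = ∑ k, t k * S j (e k) := by
      intro j
      rw [← h3]
      apply Finset.sum_congr rfl
      intro k _
      ring
    rw [h3]
    apply Finset.sum_congr rfl
    intro i _
    rw [h4]
    congr 1
    apply Finset.sum_congr rfl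
    intro k _
    ring
  rw [hq]
  simp

end Pool.Agent.Q237.GC
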