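import Pool.Agent.Q278.GC.Stm5
import Pool.Agent.Q237.GC.GA
import Pool.Agent.Q237.GC.GB
import Pool.Agent.Q237.GC.GC1

/-! # Project GC (helper278), jobs GIR, TA, QF, Q6, Q8 -/

set_option autoImplicit false

namespace Pool.Agent.Q237.GC

open Filter Topology MeasureTheory ProbabilityTheory Matrix
open Pool.Agent.Q278.GC
open scoped RealInnerProductSpace ENNReal NNReal

/-- **Job GC-GIR.** -/
theorem t_GIR : S_GIR := fun _ _ _ S hS a F hF hB => gir S hS a F hF hB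

/-- **Job GC-TA.** -/
theorem t_TA : S_TA := fun _ _ _ S hS i => ta S hS i

/-- **Job GC-Q8.** -/
theorem t_Q8 : S_Q8 := fun μ c h1 h2 h3 h4 h5 => q8 μ c h1 h2 h3 h4 h5

theorem SB_psd (K : ℕ → ℕ → ℝ → ℝ → ℝ) (κ C : ℝ) (hK : KerB K κ C) (Jm n : ℕ) :
    (SB K Jm n).PosSemidef := by
  have e := Fintype.equivFin (Fin (Jm + 1) × Fin n)
  have h1 := hK.psd (Fintype.card (Fin (Jm + 1) × Fin n))
    (fun i => ((e.symm i).1 : ℕ)) (fun i => (((e.symm i).2 : ℕ) : ℝ) / n)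
  have h2 := h1.submatrix e
  have h3 : (SB K Jm n) = (Matrix.of fun i j => K ((e.symm i).1 : ℕ) ((e.symm j).1 : ℕ)
      ((((e.symm i).2 : ℕ) : ℝ) / n) ((((e.symm j).2 : ℕ) : ℝ) / n)).submatrix e e := by
    ext p q
    simp [SB]
  rw [h3]
  exact h2

theorem ofNat_val (Jm j : ℕ) (h : j ≤ Jm) : ((Fin.ofNat (Jm + 1) j : Fin (Jm + 1)) : ℕ) = j := by
  rw [Fin.val_ofNat]
  exact Nat.mod_eq_of_lt (by omega)

theorem co_cont {Jm n : ℕ} (j : ℕ) (k : Fin n) :
    Continuous fun w : EuclideanSpace ℝ (Fin (Jm + 1) × Fin n) => co w j k := by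
  unfold co
  fun_prop

theorem meas_le {Jm n : ℕ} (j0 J : ℕ) (k : Fin n) (b : ℕ → ℝ) :
    MeasurableSet {w : EuclideanSpace ℝ (Fin (Jm + 1) × Fin n) |
      ∀ j : ℕ, j0 ≤ j → j ≤ J → co w j k ≤ b j} := by
  have h1 : {w : EuclideanSpace ℝ (Fin (Jm + 1) × Fin n) |
      ∀ j : ℕ, j0 ≤ j → j ≤ J → co w j k ≤ b j} =
      ⋂ j : ℕ, ⋂ _ : j0 ≤ j, ⋂ _ : j ≤ J, {w | co w j k ≤ b j} := by
    ext w
    simp
  rw [h1]
  refine MeasurableSet.iInter fun j => MeasurableSet.iInter fun _ => MeasurableSet.iInter fun _ => ?_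
  exact (isClosed_le (co_cont j k) continuous_const).measurableSet

open Classical in
/-- **Job GC-QF.** -/
theorem t_QF : S_GIR → S_QF := by
  intro hG K κ C hK γ a j0 Jm n J1 J2 k l hJ1 hJ2
  have hS := SB_psd K κ C hK Jm n
  have hsym : ∀ p q, SB K Jm n p q = SB K Jm n q p := by
    intro p q
    have := hS.isHermitian.apply q p
    simpa using this
  obtain ⟨p1, hp1⟩ : ∃ p1 : Fin (Jm + 1) × Fin n, p1 = (Fin.ofNat (Jm + 1) J1, k) := ⟨_, rfl⟩
  obtain ⟨p2, hp2⟩ : ∃ p2 : Fin (Jm + 1) × Fin n, p2 = (Fin.ofNat (Jm + 1) J2, l) := ⟨_, rfl⟩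
  obtain ⟨av, hav⟩ : ∃ av : Fin (Jm + 1) × Fin n → ℝ, av = fun p =>
    γ * ((if p = p1 then 1 else 0) + (if p = p2 then 1 else 0)) := ⟨_, rfl⟩
  have hsum : ∀ g : Fin (Jm + 1) × Fin n → ℝ, ∑ p, av p * g p = γ * (g p1 + g p2) := by
    intro g
    have h1 : ∀ p, av p * g p = γ * ((if p = p1 then g p else 0) + (if p = p2 then g p else 0)) := by
      intro p
      rw [hav]
      simp only
      split_ifs <;> ring
    simp_rw [h1]
    rw [← Finset.mul_sum, Finset.sum_add_distrib, Finset.sum_ite_eq', Finset.sum_ite_eq']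
    simp
  have hq : ∑ i, ∑ j, av i * av j * SB K Jm n i j =
      γ ^ 2 * (SB K Jm n p1 p1 + SB K Jm n p2 p2 + 2 * SB K Jm n p1 p2) := by
    have h1 : ∀ i, ∑ j, av i * av j * SB K Jm n i j =
        av i * (γ * (SB K Jm n i p1 + SB K Jm n i p2)) := by
      intro i
      rw [← hsum, Finset.mul_sum]
      apply Finset.sum_congr rfl
      intro j _
      ring
    simp_rw [h1]
    rw [hsum (fun i => γ * (SB K Jm n i p1 + SB K Jm n i p2)), hsym p2 p1]
    ring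
  have hmv : ∀ p, (SB K Jm n).mulVec av p = γ * (SB K Jm n p p1 + SB K Jm n p p2) := by
    intro p
    rw [← hsum]
    simp only [Matrix.mulVec, dotProduct]
    apply Finset.sum_congr rfl
    intro j _
    ring
  have hent : ∀ (j : ℕ) (m : Fin n), j ≤ Jm →
      SB K Jm n (Fin.ofNat (Jm + 1) j, m) p1 =
        K j J1 ((m : ℕ) / (n : ℝ)) ((k : ℕ) / (n : ℝ)) ∧
      SB K Jm n (Fin.ofNat (Jm + 1) j, m) p2 =
        K j J2 ((m : ℕ) / (n : ℝ)) ((l : ℕ) / (n : ℝ)) := by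
    intro j m hj
    rw [hp1, hp2]
    simp only [SB, Matrix.of_apply]
    rw [ofNat_val Jm j hj, ofNat_val Jm J1 hJ1, ofNat_val Jm J2 hJ2]
    exact ⟨rfl, rfl⟩
  -- the indicator
  obtain ⟨A, hA⟩ : ∃ A : Set (EuclideanSpace ℝ (Fin (Jm + 1) × Fin n)),
    A = {w | good a j0 J1 w k ∧ good a j0 J2 w l} := ⟨_, rfl⟩
  have hAm : MeasurableSet A := by
    rw [hA]
    exact (meas_le j0 J1 k fun j => a * j).inter (meas_le j0 J2 l fun j => a * j)
  have hGr := (hG (Fin (Jm + 1) × Fin n) (SB K Jm n) hS av (A.indicator 1)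
    (measurable_one.indicator hAm) ⟨1, fun w => by
      by_cases hw : w ∈ A
      · rw [Set.indicator_of_mem hw]; simp
      · rw [Set.indicator_of_notMem hw]; simp⟩).2
  have h11 := (hent J1 k hJ1).1
  have h12 := (hent J1 k hJ1).2
  have h22 := (hent J2 l hJ2).2
  rw [← hp1] at h11 h12
  rw [← hp2] at h22
  -- left side
  have hL : QQ K γ a j0 Jm n J1 J2 k l =
      Real.exp (γ ^ 2 * K J1 J2 ((k : ℕ) / (n : ℝ)) ((l : ℕ) / (n : ℝ))) *
      ∫ w, Real.exp ((∑ i, av i * w i) - (∑ i, ∑ j, av i * av j * SB K Jm n i j) / 2) *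
        (A.indicator (1 : EuclideanSpace ℝ (Fin (Jm + 1) × Fin n) → ℝ)) w
        ∂(multivariateGaussian (0 : EuclideanSpace ℝ (Fin (Jm + 1) × Fin n)) (SB K Jm n)) := by
    unfold QQ
    rw [← integral_const_mul]
    congr 1
    funext w
    by_cases hw : w ∈ A
    · have hw' : good a j0 J1 w k ∧ good a j0 J2 w l := by
        rw [hA] at hw
        exact hw
      rw [if_pos hw', Set.indicator_of_mem hw, Pi.one_apply, mul_one, ← Real.exp_add]
      unfold ex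
      rw [← Real.exp_add, hq, h11, h12, h22]
      have h1 := hsum (fun p => w p)
      have c1 : co w J1 k = w p1 := by rw [hp1]; rfl
      have c2 : co w J2 l = w p2 := by rw [hp2]; rfl
      rw [h1, c1, c2]
      congr 1
      ring
    · have hw' : ¬ (good a j0 J1 w k ∧ good a j0 J2 w l) := by
        intro h
        apply hw
        rw [hA]
        exact h
      rw [if_neg hw', Set.indicator_of_notMem hw, mul_zero, mul_zero]
  rw [hL, hGr]
  congr 1
  -- right side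
  obtain ⟨v, hv⟩ : ∃ v : EuclideanSpace ℝ (Fin (Jm + 1) × Fin n),
    v = WithLp.toLp 2 ((SB K Jm n).mulVec av) := ⟨_, rfl⟩
  rw [← hv]
  have hvc : ∀ (j : ℕ) (m : Fin n), j ≤ Jm → co v j m =
      γ * (K j J1 ((m : ℕ) / (n : ℝ)) ((k : ℕ) / (n : ℝ)) +
        K j J2 ((m : ℕ) / (n : ℝ)) ((l : ℕ) / (n : ℝ))) := by
    intro j m hj
    have h1 : co v j m = (SB K Jm n).mulVec av (Fin.ofNat (Jm + 1) j, m) := by
      rw [hv]
      rfl
    rw [h1, hmv, (hent j m hj).1, (hent j m hj).2]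
  have hadd : ∀ (w : EuclideanSpace ℝ (Fin (Jm + 1) × Fin n)) (j : ℕ) (m : Fin n),
      co (w + v) j m = co w j m + co v j m := fun w j m => rfl
  unfold PP
  have hset : ∀ w : EuclideanSpace ℝ (Fin (Jm + 1) × Fin n), w + v ∈ A ↔
      w ∈ {w : EuclideanSpace ℝ (Fin (Jm + 1) × Fin n) |
        (∀ j : ℕ, j0 ≤ j → j ≤ J1 → co w j k ≤ a * j -
          γ * (K j J1 ((k : ℕ) / (n : ℝ)) ((k : ℕ) / (n : ℝ)) +
            K j J2 ((k : ℕ) / (n : ℝ)) ((l : ℕ) / (n : ℝ)))) ∧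
        (∀ j : ℕ, j0 ≤ j → j ≤ J2 → co w j l ≤ a * j -
          γ * (K j J1 ((l : ℕ) / (n : ℝ)) ((k : ℕ) / (n : ℝ)) +
            K j J2 ((l : ℕ) / (n : ℝ)) ((l : ℕ) / (n : ℝ))))} := by
    intro w
    rw [hA]
    constructor
    · rintro ⟨g1, g2⟩
      refine ⟨fun j h1 h2 => ?_, fun j h1 h2 => ?_⟩
      · have := g1 j h1 h2
        rw [hadd, hvc j k (h2.trans hJ1)] at this
        linarith
      · have := g2 j h1 h2
        rw [hadd, hvc j l (h2.trans hJ2)] at this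
        linarith
    · rintro ⟨g1, g2⟩
      refine ⟨fun j h1 h2 => ?_, fun j h1 h2 => ?_⟩
      · have := g1 j h1 h2
        rw [hadd, hvc j k (h2.trans hJ1)]
        linarith
      · have := g2 j h1 h2
        rw [hadd, hvc j l (h2.trans hJ2)]
        linarith
  have hms : MeasurableSet {w : EuclideanSpace ℝ (Fin (Jm + 1) × Fin n) |
        (∀ j : ℕ, j0 ≤ j → j ≤ J1 → co w j k ≤ a * j -
          γ * (K j J1 ((k : ℕ) / (n : ℝ)) ((k : ℕ) / (n : ℝ)) +
            K j J2 ((k : ℕ) / (n : ℝ)) ((l : ℕ) / (n : ℝ)))) ∧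
        (∀ j : ℕ, j0 ≤ j → j ≤ J2 → co w j l ≤ a * j -
          γ * (K j J1 ((l : ℕ) / (n : ℝ)) ((k : ℕ) / (n : ℝ)) +
            K j J2 ((l : ℕ) / (n : ℝ)) ((l : ℕ) / (n : ℝ))))} :=
    (meas_le j0 J1 k _).inter (meas_le j0 J2 l _)
  rw [← integral_indicator_one hms]
  congr 1
  funext w
  by_cases hw : w + v ∈ A
  · rw [Set.indicator_of_mem hw, Set.indicator_of_mem ((hset w).1 hw)]
    rfl
  · rw [Set.indicator_of_notMem hw, Set.indicator_of_notMem (fun h => hw ((hset w).2 h))]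

/-- **Job GC-Q6.** -/
theorem t_Q6 : S_Q6 := by
  intro K κ C hK Jm n J hJ F hF
  have hS := SB_psd K κ C hK Jm n
  have h1 := mg_coords (SB K Jm n) hS (fun k : Fin n => (Fin.ofNat (Jm + 1) J, k))
  have h2 : (SB K Jm n).submatrix (fun k : Fin n => (Fin.ofNat (Jm + 1) J, k))
      (fun k : Fin n => (Fin.ofNat (Jm + 1) J, k)) = KM K J n := by
    ext k l
    simp only [SB, KM, Matrix.submatrix_apply, Matrix.of_apply]
    rw [ofNat_val Jm J hJ]
  rw [h2] at h1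
  rw [← h1, integral_map]
  · rfl
  · exact Measurable.aemeasurable (by fun_prop)
  · exact hF.aestronglyMeasurable

end Pool.Agent.Q237.GC
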